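import Pool.Agent.H14.DV.Stmt

/-!
# Vojta's inequality for points of bounded degree on varieties over abelian varieties

`B` is a product of abelian varieties over a number field `K` (for example `ℚ`), `X` a closed subset
of `ℙ × B`, `D` and `W` closed subschemes such that the images in `B` of `X ∩ D` and of `X ∩ W` have
codimension at least one and at least two. (If `X` is a smooth projective variety with a birational
map to `B`, then there is an effective canonical divisor over a closed subset of codimension at least
two, and one takes it as `W`; `D` can be any effective divisor.) Let `S` be the set of the places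
over infinity and over finitely many primes, and `r ≥ 1`. The inequality
`m_S(D, x) + h_W(x) ≤ ε h(P) + C` holds for the points `x` of `X` over the points `P` of degree at
most `r` of any finitely generated group `Γ` of points of `B`, with few exceptions: the number of
those of height at most `T` is at most a power of `c ^ (1 + rank Γ) (1 + log T)`, outside of cosets
contained in a hypersurface, where `c` and the exponent do not depend on `Γ` and on the fields of
definition.
-/

set_option autoImplicit false

open MvPolynomial Pool.Agent.TH954.X

namespace Pool.Agent.Results.MP_651af7_nt.AbelianBoundedDegree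

open Pool.Agent.H14.LB.S Pool.Agent.H14.PL.S Pool.Agent.H14.DV.S

/-- Let `B = ∏ A b` be a product of abelian varieties over the number field `K`, `X` a closed subset
of `ℙ × B`, `D` and `W` closed subschemes whose intersections with `X` have images of codimension at
least one and two in `B`. Let `S0` be a finite set of primes, `r` a natural number and `ε > 0`. There
are constants `C`, `c` and `κ` such that the following holds for each number field `L` containing `K`,
with an embedding `φ` into the algebraic closure of `K`, each finitely generated subgroup `Γ` of
`B(L)` and each `T ≥ 1`. Let `M = c ^ (1 + rank Γ) (1 + log T)`. Let `E` be the set of the points `P` of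
`Γ`, of degree at most `r` over `K` and of height at most `T`, over which there is a point `x` of
`X(L)` which is in `D` or in `W` or does not satisfy `m_S(D, x) + h_W(x) ≤ ε h(P) + C`, where `S` is the
set of the infinite places and of the places over the primes in `S0`.

(1) There is a form `H` over `L`, of multidegree at most `M` and not identically zero on `B`, which
vanishes at all points of `E`; and there is a set `Z` of at most `M ^ κ` points of `Γ` such that each
point `P` of `E` satisfies `h(P - z) ≤ C` for some `z` in `Z`, or there is a point `u` of `B` of
infinite order, over the algebraic closure, such that `H` vanishes at `P + m u` for all integers `m`.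

(2) If the multiples of every point of infinite order of `B`, over the algebraic closure, are dense
in `B`, then the number of the elements of `E` is at most `M ^ κ N`, where `N` is the number of the
points of `Γ` of height at most `C`.

The heights and the proximity functions are divided by the degrees of the number fields. Moreover,
products of elliptic curves are examples. -/
theorem result :
    (∀ (K : Type) [Field K] [NumberField K] (n β : ℕ) (A : Fin β → AbV K n), DimensionLe A →
      ∀ X D W : Eqs K n β, ImageCodim A X D 1 → ImageCodim A X W 2 →
      ∀ S0 : Finset ℕ, (∀ p ∈ S0, p.Prime) → ∀ (r : ℕ) (ε : ℝ), 0 < ε →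
      ∃ (C c : ℝ) (κ : ℕ), ∀ (L : Type) [Field L] [NumberField L] [Algebra K L]
        (φ : L →ₐ[K] AlgebraicClosure K) (Γ : AddSubgroup (Pts A L)), Γ.FG → ∀ T M : ℝ, 1 ≤ T →
        M = c ^ (1 + Module.finrank ℤ Γ) * (1 + Real.log T) →
        FewOutsideCosets φ Γ C M κ (ViolatingSet X D W S0 r ε C Γ T) ∧
        (Simple A → ((ViolatingSet X D W S0 r ε C Γ T).ncard : ℝ) ≤
          M ^ κ * {P | P ∈ Γ ∧ height P ≤ C}.ncard)) ∧
    ∀ (K : Type) [Field K] [NumberField K] (n : ℕ), 3 ≤ n → ∀ (β : ℕ) (a b : Fin β → K),
      (∀ i, 4 * a i ^ 3 + 27 * b i ^ 2 ≠ 0) →
      ∃ A : Fin β → AbV K n, DimensionLe A ∧ ∀ i, IsWeierstrass (A i) (a i) (b i) :=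
  ⟨fun K _ _ n β A hA X D W hD hW S0 hS0 r ε hε =>
    vojS K n β A hA X D W hD hW S0 (fun p hp => (hS0 p hp).ne_zero) r ε hε,
    fun K _ _ n hn β a b hd => exS K n hn β a b hd⟩

end Pool.Agent.Results.MP_651af7_nt.AbelianBoundedDegree
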