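import Mathlib
import Pool.Agent.H13.WS.Line

/-!
# Points of bounded degree on the projective line and Galois-generic divisors

Let `D` be a reduced effective divisor of degree `q` on the projective line over `ℚ`, `S` a finite
set of places of `ℚ` and `r ≥ 1`. Wirsing's theorem says that `m_S(D, x) ≤ (2 r + ε) h(x) + O(1)`
for all points `x` of degree at most `r`, and for general `D` (for example if `D` contains `2 r`
rational points) the constant `2 r` cannot be improved.

Let `D = R + D'`, where `R` has degree `s`, and suppose that the points of `D'` are *generic for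
points of degree `r`*: for every set `B` of at most `r` points of `D` and every point `α` of `D'`
outside of `B`,

  `[ℚ(B, α) : ℚ(B)] > r - |B|`.

(This is the case, for instance, if `D'` is irreducible of degree greater than `r` and its Galois
group over the splitting field of `R` is the full symmetric group, or only `r`-transitive. If
`r = 2`, it says that the points of `D'` have degree at least `3` and are not rational over the
field generated by another point of `D`.)

Then, without any exceptions,

  `m_S(D, x) ≤ (max (r + 1, s) + ε) h(x) + O(1)` for all `x` of degree at most `r`,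

and therefore Vojta's inequality `m_S(D, x) + h_K(x) - d(x) ≤ ε h(x) + O(1)` holds for all points
`x` of degree at most `r` whose logarithmic discriminant is at least `(max (r + 1, s) - 2) h(x)`.
(The largest possible value of `d(x)` is `(2 r - 2) h(x) + O(1)`, and Wirsing's theorem gives
Vojta's inequality only for points with `d(x) ≥ (2 r - 2 - ε) h(x)`.)

Proof. A point of degree `r` is a primitive integral form `f` of degree `r`; the proximity is
measured by the values of the linear forms evaluation at a point of `D`. One has to bound the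
proximity in every rational linear system `T`. By the subspace theorem, applied to the rational
quotients of `T`, it is enough to bound the number of points of `D` in a proper subspace `W` of the
space of forms on `T` by a combination of the dimensions of the intersections of `W` with rational
subspaces. The evaluations at the points of `D'` are coloops: if one of them depends on the
evaluations at a set `B`, then so do all its conjugates over `ℚ(B)`, and there are too many zeros.
The rest is a Harder-Narasimhan argument for the supermodular function `|A| - rank A` of the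
subsets of `R`: its destabilizing subspaces are unique, hence rational.
-/

set_option autoImplicit false

namespace Pool.Agent.Results.MP_651af7_nt.GenericDivisors

open Polynomial IntermediateField

/-- The absolute logarithmic height `(log M(f)) / deg f` of the roots of an irreducible primitive
`f` (`M` is the Mahler measure). -/
noncomputable def height (f : ℤ[X]) : ℝ :=
  Real.log (f.map (Int.castRingHom ℂ)).mahlerMeasure / f.natDegree

/-- `λ_{D,∞}(x)` for the divisor `D` of degree `q` given by `G`: the average over the conjugates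
`z` of `x`, i.e. the roots of `f`, of `log (max(1,|z|)^q / |G(z)|)`. -/
noncomputable def lambdaInf (G : ℤ[X]) (q : ℕ) (f : ℤ[X]) : ℝ :=
  ((f.map (Int.castRingHom ℂ)).roots.map fun z =>
    Real.log (max 1 ‖z‖ ^ q / ‖(G.map (Int.castRingHom ℂ)).eval z‖)).sum / f.natDegree

/-- `λ_{D,p}(x)`, the average over the conjugates `z` of `x` over `ℚ_p` of
`log (max(1,|z|_p)^q / |G(z)|_p)`; for primitive `f` the sum over the conjugates is
`-log |Res(f,G)|_p`, with `Res` the resultant for the degrees `deg f` and `q`. -/
noncomputable def lambdaP (p : ℕ) (G : ℤ[X]) (q : ℕ) (f : ℤ[X]) : ℝ :=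
  (padicValInt p (resultant f G f.natDegree q) : ℝ) * Real.log p / f.natDegree

open Classical in
/-- The logarithmic discriminant `d(x)` of the field `ℚ(x)`. -/
noncomputable def logDisc (x : ℂ) : ℝ :=
  if _ : NumberField ℚ⟮x⟯ then
    Real.log |(NumberField.discr ℚ⟮x⟯ : ℝ)| / Module.finrank ℚ ℚ⟮x⟯ else 0

/-- `x` is an algebraic number of degree at most `r` with minimal polynomial `f` over `ℤ`, and not
in the support of `D`. -/
def Pt (G : ℤ[X]) (r : ℕ) (x : ℂ) (f : ℤ[X]) : Prop :=
  Irreducible f ∧ 1 ≤ f.natDegree ∧ f.natDegree ≤ r ∧ aeval x f = 0 ∧ aeval x G ≠ 0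

/-- The zeros of `H` are generic among the zeros of `G`, for points of degree `r`: the degree of
`ℚ(B, α)` over `ℚ(B)` is greater than `r - |B|` for every set `B` of at most `r` zeros of `G` and
every zero `α` of `H` outside of `B`. -/
def Generic (G H : ℤ[X]) (r : ℕ) : Prop :=
  ∀ B : Finset ℂ, (∀ b ∈ B, aeval b G = 0) → B.card ≤ r → ∀ α : ℂ, α ∉ B → aeval α H = 0 →
    r < B.card + (minpoly (IntermediateField.adjoin ℚ (B : Set ℂ)) α).natDegree

/-- a root of `f` outside the support of `D` has nonzero resultant -/
lemma resultant_ne (f G : ℤ[X]) (q : ℕ) (hGq : G.natDegree ≤ q) (hf : Irreducible f)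
    (hd : 1 ≤ f.natDegree) (x : ℂ) (hx : aeval x f = 0) (hG : aeval x G ≠ 0) :
    resultant f G f.natDegree q ≠ 0 := by
  intro h0
  have h1 := Pool.Agent.H990R4.VJ.res_eq f G q hGq
  rw [h0, Int.cast_zero, eq_comm, mul_eq_zero] at h1
  rcases h1 with h1 | h1
  · have h2 : (f.leadingCoeff : ℂ) = 0 := by
      by_contra hne
      exact (pow_ne_zero q hne) h1
    exact hf.ne_zero (leadingCoeff_eq_zero.1 (by exact_mod_cast h2))
  · obtain ⟨z, hz, hz0⟩ := Multiset.mem_map.1 (Multiset.prod_eq_zero_iff.1 h1)
    rw [mem_roots'] at hz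
    have hzf : aeval z f = 0 := by
      have := hz.2
      rw [IsRoot.def, eval_map] at this
      rw [aeval_def]; exact this
    have hzG : aeval z G = 0 := by
      rw [eval_map] at hz0
      rw [aeval_def]; exact hz0
    have hprim : f.IsPrimitive := hf.isPrimitive (by omega)
    have hirr : Irreducible (f.map (algebraMap ℤ ℚ)) :=
      (hprim.irreducible_iff_irreducible_map_fraction_map).1 hf
    have hzf' : aeval z (f.map (algebraMap ℤ ℚ)) = 0 := by rw [aeval_map_algebraMap]; exact hzf
    have hzG' : aeval z (G.map (algebraMap ℤ ℚ)) = 0 := by rw [aeval_map_algebraMap]; exact hzG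
    have hm1 : minpoly ℚ z ∣ f.map (algebraMap ℤ ℚ) := minpoly.dvd ℚ z hzf'
    have hm2 : minpoly ℚ z ∣ G.map (algebraMap ℤ ℚ) := minpoly.dvd ℚ z hzG'
    have hint : IsIntegral ℚ z := by
      rw [← isAlgebraic_iff_isIntegral]
      exact ⟨f.map (algebraMap ℤ ℚ), hirr.ne_zero, hzf'⟩
    have hass : Associated (minpoly ℚ z) (f.map (algebraMap ℤ ℚ)) :=
      (minpoly.irreducible hint).associated_of_dvd hirr hm1
    have hdvd : f.map (algebraMap ℤ ℚ) ∣ G.map (algebraMap ℤ ℚ) := hass.symm.dvd.trans hm2
    obtain ⟨k, hk⟩ := hdvd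
    apply hG
    have h5 : aeval x (G.map (algebraMap ℤ ℚ)) = 0 := by
      rw [hk, map_mul, aeval_map_algebraMap, hx, zero_mul]
    rwa [aeval_map_algebraMap] at h5

/-- **Vojta's inequality for points of bounded degree and Galois-generic divisors on the line.** Let
`D` be the reduced effective divisor of degree `q ≥ 1` on the projective line over `ℚ` given by `G`
(`D = div₀(G) + (q - deg G) ∞`), `H` a divisor of `G` whose zeros are generic for points of degree
`r`, `s = q - deg H` the degree of the remaining part of `D`, `S` a finite set of primes and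
`ε > 0`. There is a constant `C` such that for all algebraic numbers `x` of degree at most `r`
outside of the support of `D`

* `∑_{v ∈ S ∪ {∞}} λ_{D,v}(x) ≤ (max (r + 1, s) + ε) h(x) + C`;
* `∑_{v ∈ S ∪ {∞}} λ_{D,v}(x) + h_K(x) - d(x) ≤ ε h(x) + C`, with `h_K = -2 h`, if
  `d(x) ≥ (max (r + 1, s) - 2) h(x)`. -/
theorem result (r q : ℕ) (G H : ℤ[X])
    (hG : Squarefree (G.map (Int.castRingHom ℚ))) (hq : 1 ≤ q) (hGq : G.natDegree ≤ q)
    (hqG : q ≤ G.natDegree + 1) (hHG : H ∣ G) (hgen : Generic G H r)
    (S : Finset ℕ) (hS : ∀ p ∈ S, p.Prime) (ε : ℝ) (hε : 0 < ε) :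
    ∃ C : ℝ, ∀ (x : ℂ) (f : ℤ[X]), Pt G r x f →
      lambdaInf G q f + ∑ p ∈ S, lambdaP p G q f ≤
        (((max (r + 1) (q - H.natDegree) : ℕ) : ℝ) + ε) * height f + C ∧
      ((((max (r + 1) (q - H.natDegree) : ℕ) : ℝ) - 2) * height f ≤ logDisc x →
        lambdaInf G q f + ∑ p ∈ S, lambdaP p G q f + (-2) * height f - logDisc x ≤
          ε * height f + C) := by
  classical
  have hG0 : G ≠ 0 := by
    rintro rfl
    rw [Polynomial.map_zero] at hG
    exact hG.ne_zero rfl
  have hex : ∀ m : ℕ, ∃ C : ℝ, 0 ≤ C ∧ (m ≤ r → ∀ f : ℤ[X], f.IsPrimitive → f.natDegree = m →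
      resultant f G m q ≠ 0 →
      q * Real.log (Pool.Agent.H990R4.VJ.mm f) - Real.log |((resultant f G m q : ℤ) : ℝ)| +
        ∑ p ∈ S, (padicValInt p (resultant f G m q) : ℝ) * Real.log p ≤
      (((max (m + 1) (q - H.natDegree) : ℕ) : ℝ) + ε) * Real.log (Pool.Agent.H990R4.VJ.mm f) +
        C) := by
    intro m
    by_cases hm : m ≤ r
    · obtain ⟨C, hC, h⟩ := Pool.Agent.H13.WS.exact_deg m q G H hG0 hG hGq hqG hq hHG
        (fun B hB hBm α hα hαH => by
          have := hgen B hB (hBm.trans hm) α hα hαH
          omega) S hS ε hε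
      exact ⟨C, hC, fun _ => h⟩
    · exact ⟨0, le_rfl, fun h => absurd h hm⟩
  choose C hC0 hC using hex
  refine ⟨∑ m ∈ Finset.range (r + 1), C m, fun x f hx => ?_⟩
  obtain ⟨hirr, hd1, hdr, hx0, hxG⟩ := hx
  have hf0 : f ≠ 0 := hirr.ne_zero
  have hM1 : 1 ≤ Pool.Agent.H990R4.VJ.mm f := Pool.Agent.H990R4.VJ.one_le_mm hf0
  have hlogM : 0 ≤ Real.log (Pool.Agent.H990R4.VJ.mm f) := Real.log_nonneg hM1
  have hR := resultant_ne f G q hGq hirr hd1 x hx0 hxG
  have hsum := Pool.Agent.H990R4.VJ.sum_log_eq f G q hGq hf0 hR
  have hd0 : (0 : ℝ) < f.natDegree := by exact_mod_cast hd1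
  have hdge : (1 : ℝ) ≤ f.natDegree := by exact_mod_cast hd1
  have h1 := hC f.natDegree hdr f (hirr.isPrimitive (by omega)) rfl hR
  have hCle : C f.natDegree ≤ ∑ m ∈ Finset.range (r + 1), C m :=
    Finset.single_le_sum (f := C) (fun m _ => hC0 m) (Finset.mem_range.2 (by omega))
  have hmax : ((max (f.natDegree + 1) (q - H.natDegree) : ℕ) : ℝ) ≤
      ((max (r + 1) (q - H.natDegree) : ℕ) : ℝ) := by
    have : max (f.natDegree + 1) (q - H.natDegree) ≤ max (r + 1) (q - H.natDegree) :=
      max_le_max (by omega) le_rfl
    exact_mod_cast this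
  have key : lambdaInf G q f + ∑ p ∈ S, lambdaP p G q f ≤
      (((max (r + 1) (q - H.natDegree) : ℕ) : ℝ) + ε) * height f +
        ∑ m ∈ Finset.range (r + 1), C m := by
    unfold lambdaInf lambdaP height
    rw [hsum, ← Finset.sum_div, ← add_div, div_le_iff₀ hd0]
    have e1 : ((((max (r + 1) (q - H.natDegree) : ℕ) : ℝ) + ε) *
        (Real.log (f.map (Int.castRingHom ℂ)).mahlerMeasure / f.natDegree) +
        ∑ m ∈ Finset.range (r + 1), C m) * f.natDegree =
        (((max (r + 1) (q - H.natDegree) : ℕ) : ℝ) + ε) * Real.log (Pool.Agent.H990R4.VJ.mm f) +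
        f.natDegree * ∑ m ∈ Finset.range (r + 1), C m := by
      unfold Pool.Agent.H990R4.VJ.mm
      field_simp
    rw [e1]
    refine h1.trans (add_le_add (mul_le_mul_of_nonneg_right (by linarith) hlogM) ?_)
    have e2 : 0 ≤ ∑ m ∈ Finset.range (r + 1), C m := Finset.sum_nonneg fun m _ => hC0 m
    nlinarith
  refine ⟨key, fun hdisc => ?_⟩
  linarith

end Pool.Agent.Results.MP_651af7_nt.GenericDivisors
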