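import Mathlib
import Pool.Agent.H13.QP.TransQ
import Pool.Agent.H13.QP.Disc

/-!
# Vojta's inequality for the quadratic points of the projective line: generic divisors

Let `D` be a reduced effective divisor on the projective line over `ℚ` without rational points such
that different points of `D` generate different fields (for instance the divisor of the zeros of an
irreducible polynomial of degree at least `3` whose Galois group is doubly transitive), `S` a finite
set of places of `ℚ` and `ε > 0`. For an algebraic number `x` of degree at most `2` with minimal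
polynomial `f` over `ℤ` let `c(x)` be the index of the order of `f` in the ring of integers of
`ℚ(x)`, i.e. `disc f = c(x)² disc ℚ(x)`, and `c_S(x)` its part prime to `S`. We prove

  `∑_{v ∈ S} λ_{D,v}(x) + h_K(x) - d(x) ≤ ε h(x) + (log c_S(x) - d(x)) / 2 + C`

for all `x` of degree at most `2` (outside of the support of `D`), without any exceptional set. So
Vojta's inequality holds for all `x` with `c_S(x) ≤ |disc ℚ(x)| ^ (1 / 2)`, i.e. for all `x` such
that the square part of the discriminant of `f`, prime to `S`, is at most the discriminant of the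
field: a third condition besides the conditions `c_S(x) ≤ H(x) ^ ε` (for all divisors without
rational points) and `d(x) ≥ h(x)` (for almost the same divisors) of earlier results. In general
`∑_{v ∈ S} λ_{D,v}(x) ≤ (2 + ε) h(x) + (log |disc f|) / 4 + C`.

Proof. Let `f` run through the rational points of the plane of quadratic polynomials. For `α` in the
support of `D` let `L_α(f) = f(α)`, and `Δ(f)` the discriminant. One has to prove

  `∑_{v ∈ S} (∑_α λ_{L_α,v}(f) + λ_{Δ,v}(f) / 2) ≤ (3 + ε) h(f) + C`.

The subspace theorem for the forms of large degree, with the bases adapted to two lines, or a line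
and the conic, gives this inequality outside of finitely many rational curves of the plane. On an
irreducible rational curve `F` of degree `d`, the subspace theorem is applied to the forms modulo
`F`. If `f` is `v`-adically close to the point `(X - α) (X - β)`, where `β` is not in `ℚ(α)`, the
forms are filtered by their order of vanishing at this point, the line `L_α` having weight `w`, the
intersection number of `F` and `L_α` at this point, and `L_β` weight `1`. As the point has at least
two conjugates over `ℚ(α)`, all of them on the line `L_α`, `w` is at most `d / 2`. The filtration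
by the powers of `L_β` does the rest here: `f` may be much closer to `L_β` than to `L_α`. If `f` is
close to `(X - α)²` the filtration by the powers of `L_α` or a weighted filtration is used, the
contact of `F` with the conic being at most `d` as `α` is not rational. The exceptional forms of this
step have only finitely many zeros on `F`.
-/

set_option autoImplicit false

namespace Pool.Agent.Results.MP_651af7_nt.GenericQuadraticPoints

open Polynomial IntermediateField

/-- The absolute logarithmic height `(log M(f)) / deg f` of the roots of an irreducible primitive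
`f` (`M` is the Mahler measure). -/
noncomputable def height (f : ℤ[X]) : ℝ :=
  Real.log (f.map (Int.castRingHom ℂ)).mahlerMeasure / f.natDegree

/-- `λ_{D,∞}(x)` for the divisor `D` of degree `q = deg G` of the zeros of `G`: the average over the
conjugates `z` of `x`, i.e. the roots of `f`, of `log (max(1,|z|)^q / |G(z)|)`. -/
noncomputable def lambdaInf (G f : ℤ[X]) : ℝ :=
  ((f.map (Int.castRingHom ℂ)).roots.map fun z =>
    Real.log (max 1 ‖z‖ ^ G.natDegree / ‖(G.map (Int.castRingHom ℂ)).eval z‖)).sum / f.natDegree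

/-- `λ_{D,p}(x)`, the average over the conjugates `z` of `x` over `ℚ_p` of
`log (max(1,|z|_p)^q / |G(z)|_p)`; for primitive `f` the sum over the conjugates is
`-log |Res(f,G)|_p`. -/
noncomputable def lambdaP (p : ℕ) (G f : ℤ[X]) : ℝ :=
  (padicValInt p (resultant f G f.natDegree G.natDegree) : ℝ) * Real.log p / f.natDegree

open Classical in
/-- The discriminant of the field `ℚ(x)`. -/
noncomputable def fieldDisc (x : ℂ) : ℤ :=
  if _ : NumberField ℚ⟮x⟯ then NumberField.discr ℚ⟮x⟯ else 0

/-- The logarithmic discriminant `d(x)` of the field `ℚ(x)`. -/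
noncomputable def logDisc (x : ℂ) : ℝ :=
  Real.log |(fieldDisc x : ℝ)| / Module.finrank ℚ ℚ⟮x⟯

/-- `log c_S`, the logarithm of the largest divisor of `c` prime to the primes of `S` -/
noncomputable def logPart (S : Finset ℕ) (c : ℕ) : ℝ :=
  Real.log c - ∑ p ∈ S, (padicValNat p c : ℝ) * Real.log p

/-- `x` is an algebraic number of degree at most `2` with minimal polynomial `f` over `ℤ`, and not
in the support of `D`. -/
def Pt (G : ℤ[X]) (x : ℂ) (f : ℤ[X]) : Prop :=
  Irreducible f ∧ 1 ≤ f.natDegree ∧ f.natDegree ≤ 2 ∧ aeval x f = 0 ∧ aeval x G ≠ 0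

/-- a root of `f` outside the support of `D` has nonzero resultant -/
lemma resultant_ne (f G : ℤ[X]) (hf : Irreducible f)
    (hd : 1 ≤ f.natDegree) (x : ℂ) (hx : aeval x f = 0) (hG : aeval x G ≠ 0) :
    resultant f G f.natDegree G.natDegree ≠ 0 := by
  intro h0
  have h1 := Pool.Agent.H990R4.VJ.res_eq f G G.natDegree le_rfl
  rw [h0, Int.cast_zero, eq_comm, mul_eq_zero] at h1
  rcases h1 with h1 | h1
  · have h2 : (f.leadingCoeff : ℂ) = 0 := by
      by_contra hne
      exact (pow_ne_zero G.natDegree hne) h1
    exact hf.ne_zero (leadingCoeff_eq_zero.1 (by exact_mod_cast h2))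
  · obtain ⟨z, hz, hz0⟩ := Multiset.mem_map.1 (Multiset.prod_eq_zero_iff.1 h1)
    rw [mem_roots'] at hz
    have hzf : aeval z f = 0 := by
      have := hz.2
      rw [IsRoot.def, eval_map] at this
      rw [aeval_def]; exact this
    have hzG : aeval z G = 0 := by
      rw [eval_map] at hz0
      rw [aeval_def]; exact hz0
    have hprim : f.IsPrimitive := hf.isPrimitive (by omega)
    have hirr : Irreducible (f.map (algebraMap ℤ ℚ)) :=
      (hprim.irreducible_iff_irreducible_map_fraction_map).1 hf
    have hzf' : aeval z (f.map (algebraMap ℤ ℚ)) = 0 := by rw [aeval_map_algebraMap]; exact hzf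
    have hzG' : aeval z (G.map (algebraMap ℤ ℚ)) = 0 := by rw [aeval_map_algebraMap]; exact hzG
    have hm1 : minpoly ℚ z ∣ f.map (algebraMap ℤ ℚ) := minpoly.dvd ℚ z hzf'
    have hm2 : minpoly ℚ z ∣ G.map (algebraMap ℤ ℚ) := minpoly.dvd ℚ z hzG'
    have hint : IsIntegral ℚ z := by
      rw [← isAlgebraic_iff_isIntegral]
      exact ⟨f.map (algebraMap ℤ ℚ), hirr.ne_zero, hzf'⟩
    have hass : Associated (minpoly ℚ z) (f.map (algebraMap ℤ ℚ)) :=
      (minpoly.irreducible hint).associated_of_dvd hirr hm1
    have hdvd : f.map (algebraMap ℤ ℚ) ∣ G.map (algebraMap ℤ ℚ) := hass.symm.dvd.trans hm2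
    obtain ⟨k, hk⟩ := hdvd
    apply hG
    have h5 : aeval x (G.map (algebraMap ℤ ℚ)) = 0 := by
      rw [hk, map_mul, aeval_map_algebraMap, hx, zero_mul]
    rwa [aeval_map_algebraMap] at h5

/-- the discriminant of an irreducible quadratic polynomial -/
lemma discr_ne (x : ℂ) (f : ℤ[X]) (hf : Irreducible f) (hd : f.natDegree = 2)
    (hx : aeval x f = 0) : f.discr ≠ 0 := by
  intro h0
  have hf0 := hf.ne_zero
  rw [discr_of_degree_eq_two (by rw [degree_eq_natDegree hf0, hd]; rfl)] at h0
  have ha : f.coeff 2 ≠ 0 := by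
    rw [← hd]
    exact leadingCoeff_ne_zero.2 hf0
  have ha' : (f.coeff 2 : ℂ) ≠ 0 := by exact_mod_cast ha
  have h0' : (f.coeff 1 : ℂ) ^ 2 - 4 * f.coeff 0 * f.coeff 2 = 0 := by exact_mod_cast h0
  have hx2 := hx
  rw [aeval_eq_sum_range, hd, Finset.sum_range_succ, Finset.sum_range_succ,
    Finset.sum_range_one] at hx2
  simp only [pow_zero, pow_one, zsmul_eq_mul, mul_one] at hx2
  have h1 : (2 * (f.coeff 2 : ℂ) * x + f.coeff 1) ^ 2 = 0 := by
    linear_combination 4 * (f.coeff 2 : ℂ) * hx2 + h0'
  have h2 : 2 * (f.coeff 2 : ℂ) * x + f.coeff 1 = 0 := by simpa using h1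
  have hprim : f.IsPrimitive := hf.isPrimitive (by omega)
  have hirr : Irreducible (f.map (algebraMap ℤ ℚ)) :=
    (hprim.irreducible_iff_irreducible_map_fraction_map).1 hf
  have hx' : aeval x (f.map (algebraMap ℤ ℚ)) = 0 := by rw [aeval_map_algebraMap]; exact hx
  have hdvd : f.map (algebraMap ℤ ℚ) ∣ C (2 * (f.coeff 2 : ℚ)) * X + C (f.coeff 1 : ℚ) := by
    have hm := minpoly.eq_of_irreducible hirr hx'
    have h3 : minpoly ℚ x ∣ C (2 * (f.coeff 2 : ℚ)) * X + C (f.coeff 1 : ℚ) := by
      refine minpoly.dvd ℚ x ?_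
      simp only [map_add, map_mul, aeval_X, map_intCast, map_ofNat]
      exact h2
    rw [← hm] at h3
    exact (dvd_mul_right _ _).trans h3
  have hne : C (2 * (f.coeff 2 : ℚ)) * X + C (f.coeff 1 : ℚ) ≠ 0 := by
    intro h
    have h3 : coeff (C (2 * (f.coeff 2 : ℚ)) * X + C (f.coeff 1 : ℚ)) 1 = 0 := by
      rw [h, coeff_zero]
    rw [coeff_add, coeff_C_mul, coeff_X_one, coeff_C_of_ne_zero one_ne_zero, mul_one, add_zero] at h3
    have h4 : (f.coeff 2 : ℚ) ≠ 0 := by exact_mod_cast ha
    exact (mul_ne_zero two_ne_zero h4) h3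
  have h4 := natDegree_le_of_dvd hdvd hne
  rw [natDegree_map_eq_of_injective (RingHom.injective_int _), hd] at h4
  have h5 : (C (2 * (f.coeff 2 : ℚ)) * X + C (f.coeff 1 : ℚ)).natDegree ≤ 1 := natDegree_linear_le
  omega

/-- **Vojta's inequality for the quadratic points of the projective line: generic divisors.** Let
`D` be the divisor of the zeros of `G`, reduced and without rational points, and suppose that
different zeros of `G` generate different fields. Let `S` be a finite set of primes and `ε > 0`.
There is a constant `C` such that for all algebraic numbers `x` of degree at most `2` outside of the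
support of `D`, with minimal polynomial `f` over `ℤ`, and `disc f = c² disc ℚ(x)`,

`∑_{v ∈ S ∪ {∞}} λ_{D,v}(x) + h_K(x) - d(x) ≤ ε h(x) + (log c_S - d(x)) / 2 + C`,

with `h_K = -2 h` and `c_S` the part of `c` prime to `S`. In particular Vojta's inequality holds for
all `x` with `c_S ≤ |disc ℚ(x)| ^ (1 / 2)`, i.e. `log c_S ≤ d(x)`. -/
theorem result (G : ℤ[X]) (hG : Squarefree (G.map (Int.castRingHom ℚ))) (hq : 1 ≤ G.natDegree)
    (hrat : ∀ a : ℚ, aeval a G ≠ 0)
    (hgen : ∀ a b : ℂ, aeval a G = 0 → aeval b G = 0 → a ≠ b → ℚ⟮a⟯ ≠ ℚ⟮b⟯)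
    (S : Finset ℕ) (hS : ∀ p ∈ S, p.Prime) (ε : ℝ) (hε : 0 < ε) :
    ∃ C : ℝ, ∀ (x : ℂ) (f : ℤ[X]), Pt G x f →
      ∃ c : ℕ, 0 < c ∧ f.discr = (c : ℤ) ^ 2 * fieldDisc x ∧
        lambdaInf G f + ∑ p ∈ S, lambdaP p G f + (-2) * height f - logDisc x ≤
          ε * height f + (logPart S c - logDisc x) / 2 + C ∧
        (logPart S c ≤ logDisc x →
          lambdaInf G f + ∑ p ∈ S, lambdaP p G f + (-2) * height f - logDisc x ≤
            ε * height f + C) := by
  classical
  have hG0 : G ≠ 0 := by
    rintro rfl
    simp at hq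
  obtain ⟨C1, hC1, h1⟩ := Pool.Agent.H13.WS.exact_deg 1 G.natDegree G G hG0 hG le_rfl (by omega)
    hq dvd_rfl (fun B hB hBc α hαB hα => by
      rcases Nat.eq_zero_or_pos B.card with h | h
      · have hB0 : B = ∅ := Finset.card_eq_zero.1 h
        subst hB0
        rw [Finset.card_empty, zero_add]
        have hint : IsIntegral (IntermediateField.adjoin ℚ ((∅ : Finset ℂ) : Set ℂ)) α := by
          have h2 : IsIntegral ℚ α := Pool.Agent.H13.QP.isInt α G hG0 hα
          exact h2.tower_top
        by_contra hlt
        push Not at hlt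
        have h3 := minpoly.natDegree_pos hint
        have h4 : (minpoly (IntermediateField.adjoin ℚ ((∅ : Finset ℂ) : Set ℂ)) α).degree = 1 := by
          rw [degree_eq_natDegree (minpoly.ne_zero hint)]
          have h5 : (minpoly (IntermediateField.adjoin ℚ ((∅ : Finset ℂ) : Set ℂ)) α).natDegree =
            1 := by omega
          rw [h5]
          rfl
        obtain ⟨r, hr⟩ := minpoly.mem_range_of_degree_eq_one _ _ h4
        have h7 : IntermediateField.adjoin ℚ ((∅ : Finset ℂ) : Set ℂ) = ⊥ := by
          rw [Finset.coe_empty, IntermediateField.adjoin_empty]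
        have h6 : (r : ℂ) ∈ (⊥ : IntermediateField ℚ ℂ) := h7.le r.2
        obtain ⟨a, ha⟩ := IntermediateField.mem_bot.1 h6
        have h8 : algebraMap ℚ ℂ a = α := by
          rw [ha]
          exact hr
        rw [← h8, Polynomial.aeval_algebraMap_apply] at hα
        exact hrat a ((map_eq_zero (algebraMap ℚ ℂ)).1 hα)
      · have hint : IsIntegral (IntermediateField.adjoin ℚ (B : Set ℂ)) α := by
          have h2 : IsIntegral ℚ α := Pool.Agent.H13.QP.isInt α G hG0 hα
          exact h2.tower_top
        have := minpoly.natDegree_pos hint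
        omega) S hS ε hε
  obtain ⟨C2, hC2, h2⟩ := Pool.Agent.H13.QP.quad_degQ G hG hq hrat hgen S hS ε hε
  refine ⟨C1 + C2, fun x f hx => ?_⟩
  suffices hmain : ∃ c : ℕ, 0 < c ∧ f.discr = (c : ℤ) ^ 2 * fieldDisc x ∧
      lambdaInf G f + ∑ p ∈ S, lambdaP p G f + (-2) * height f - logDisc x ≤
        ε * height f + ((Real.log c - ∑ p ∈ S, (padicValNat p c : ℝ) * Real.log p) -
          logDisc x) / 2 + (C1 + C2) by
    obtain ⟨c, hc0, hc1, hc2⟩ := hmain
    refine ⟨c, hc0, hc1, hc2, fun hle => ?_⟩
    unfold logPart at hle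
    linarith
  obtain ⟨hirr, hd1, hd2, hx0, hxG⟩ := hx
  have hf0 : f ≠ 0 := hirr.ne_zero
  have hM1 : 1 ≤ Pool.Agent.H990R4.VJ.mm f := Pool.Agent.H990R4.VJ.one_le_mm hf0
  have hlogM : 0 ≤ Real.log (Pool.Agent.H990R4.VJ.mm f) := Real.log_nonneg hM1
  have hR := resultant_ne f G hirr hd1 x hx0 hxG
  have hsum := Pool.Agent.H990R4.VJ.sum_log_eq f G G.natDegree le_rfl hf0 hR
  have hNF : NumberField ℚ⟮x⟯ := Pool.Agent.H13.QP.numberField_of x f hf0 hx0
  have hfd : fieldDisc x = NumberField.discr ℚ⟮x⟯ := dif_pos hNF
  have hprim : f.IsPrimitive := hirr.isPrimitive (by omega)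
  have hmm : Real.log (f.map (Int.castRingHom ℂ)).mahlerMeasure =
      Real.log (Pool.Agent.H990R4.VJ.mm f) := rfl
  rcases Nat.lt_or_ge f.natDegree 2 with hlt | hge
  · have hd : f.natDegree = 1 := by omega
    have hdisc1 : f.discr = 1 := discr_of_degree_eq_one (by
      rw [degree_eq_natDegree hf0, hd]; rfl)
    have hK1 : fieldDisc x = 1 := by
      rw [hfd]
      exact Pool.Agent.H13.QP.disc_lin x f hf0 hd hx0
    refine ⟨1, one_pos, by rw [hdisc1, hK1]; norm_num, ?_⟩
    rw [hd] at hR
    have h3 := h1 f hprim hd hR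
    have h4 : logDisc x = 0 := by
      unfold logDisc
      rw [hK1]
      simp
    have h5 : Real.log ((1 : ℕ) : ℝ) - ∑ p ∈ S, (padicValNat p 1 : ℝ) * Real.log p = 0 := by
      simp
    rw [h4, h5, sub_zero, sub_zero, zero_div]
    unfold lambdaInf lambdaP height
    rw [hsum, hmm, hd]
    simp only [Nat.cast_one, div_one]
    have h6 : (((max (1 + 1) (G.natDegree - G.natDegree) : ℕ) : ℝ)) = 2 := by
      rw [Nat.sub_self]
      norm_num
    rw [h6] at h3
    linarith
  · have hd : f.natDegree = 2 := by omega
    obtain ⟨c0, hc0⟩ := Pool.Agent.H13.QP.disc_quad x f hirr hd hx0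
    have hdn := discr_ne x f hirr hd hx0
    set c : ℕ := c0.natAbs with hc
    have hcc : (c : ℤ) ^ 2 = c0 ^ 2 := by rw [hc, Int.natAbs_sq]
    have hdK : f.discr = (c : ℤ) ^ 2 * fieldDisc x := by rw [hcc, hfd, hc0]
    have hcpos : 0 < c := by
      rcases Nat.eq_zero_or_pos c with h | h
      · rw [h] at hdK
        simp at hdK
        exact absurd hdK hdn
      · exact h
    have hK0 : fieldDisc x ≠ 0 := by
      intro h
      rw [h, mul_zero] at hdK
      exact hdn hdK
    refine ⟨c, hcpos, hdK, ?_⟩
    rw [hd] at hR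
    have h3 := h2 f hprim hd hR hdn
    have hfin : (Module.finrank ℚ ℚ⟮x⟯ : ℝ) = 2 := by
      have hint := Pool.Agent.H13.QP.isInt x f hf0 hx0
      have hirrQ : Irreducible (f.map (algebraMap ℤ ℚ)) :=
        (hprim.irreducible_iff_irreducible_map_fraction_map).1 hirr
      have hx' : aeval x (f.map (algebraMap ℤ ℚ)) = 0 := by rw [aeval_map_algebraMap]; exact hx0
      have hmin := minpoly.eq_of_irreducible hirrQ hx'
      have h4 : (minpoly ℚ x).natDegree = 2 := by
        rw [← hmin, natDegree_mul_C (inv_ne_zero (leadingCoeff_ne_zero.2 hirrQ.ne_zero)),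
          natDegree_map_eq_of_injective (RingHom.injective_int _), hd]
      rw [IntermediateField.adjoin.finrank hint, h4]
      norm_num
    have hc0' : (c : ℝ) ≠ 0 := by exact_mod_cast hcpos.ne'
    have hK0' : (fieldDisc x : ℝ) ≠ 0 := by exact_mod_cast hK0
    have hlogd : Real.log |((f.discr : ℤ) : ℝ)| = 2 * Real.log c + Real.log |(fieldDisc x : ℝ)| := by
      rw [hdK]
      push_cast
      rw [abs_mul, abs_pow, Nat.abs_cast, Real.log_mul (pow_ne_zero 2 hc0') (abs_ne_zero.2 hK0'),
        Real.log_pow]
      norm_num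
    have hval : ∀ p ∈ S, (2 * (padicValNat p c : ℝ)) * Real.log p ≤
        (padicValInt p f.discr : ℝ) * Real.log p := by
      intro p hp
      have hpp : Fact p.Prime := ⟨hS p hp⟩
      refine mul_le_mul_of_nonneg_right ?_ (Real.log_nonneg (by exact_mod_cast (hS p hp).one_le))
      have hc1 : ((c : ℤ) ^ 2) ≠ 0 := pow_ne_zero 2 (by exact_mod_cast hcpos.ne')
      rw [hdK, padicValInt.mul hc1 hK0]
      have h4 : padicValInt p ((c : ℤ) ^ 2) = 2 * padicValNat p c := by
        have h5 : ((c : ℤ) ^ 2).natAbs = c ^ 2 := by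
          rw [Int.natAbs_pow, Int.natAbs_natCast]
        rw [padicValInt, h5, padicValNat.pow]
      rw [h4]
      push_cast
      have : (0 : ℝ) ≤ padicValInt p (fieldDisc x) := Nat.cast_nonneg _
      linarith
    have hvals := Finset.sum_le_sum hval
    have hvals2 : ∑ p ∈ S, (2 * (padicValNat p c : ℝ)) * Real.log p =
        2 * ∑ p ∈ S, (padicValNat p c : ℝ) * Real.log p := by
      rw [Finset.mul_sum]
      refine Finset.sum_congr rfl fun p _ => ?_
      ring
    rw [hvals2] at hvals
    unfold lambdaInf lambdaP height logDisc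
    rw [hsum, hmm, hd, hfin, ← Finset.sum_div]
    push_cast
    rw [hlogd] at h3
    rw [← add_div]
    have h7 : (C1 + C2) ≥ C2 / 2 := by linarith
    have e1 : ((G.natDegree : ℝ) * Real.log (Pool.Agent.H990R4.VJ.mm f) -
        Real.log |((resultant f G 2 G.natDegree : ℤ) : ℝ)| +
        ∑ p ∈ S, (padicValInt p (resultant f G 2 G.natDegree) : ℝ) * Real.log p) / 2 ≤
        ((2 + ε) * Real.log (Pool.Agent.H990R4.VJ.mm f) + C2 + Real.log c +
          Real.log |(fieldDisc x : ℝ)| / 2 - ∑ p ∈ S, (padicValNat p c : ℝ) * Real.log p) / 2 := by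
      refine div_le_div_of_nonneg_right ?_ (by norm_num)
      linarith
    linarith

end Pool.Agent.Results.MP_651af7_nt.GenericQuadraticPoints
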